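import Mathlib
import Pool.Graph.R_pool_sql_team_seeded_620a6dc7.H405.Fin0
import Pool.Graph.R_pool_sql_team_seeded_620a6dc7.H405.Asm7
import Pool.Graph.R_pool_sql_team_seeded_620a6dc7.H405.Asm74
import Pool.Graph.R_pool_sql_team_seeded_620a6dc7.H405.T11
import Pool.Graph.R_pool_sql_team_seeded_620a6dc7.H405.T12
import Pool.Graph.R_pool_sql_team_seeded_620a6dc7.H405.T13
import Pool.Graph.R_pool_sql_team_seeded_620a6dc7.H405.T15
import Pool.Graph.R_pool_sql_team_seeded_620a6dc7.H405.T15b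
import Pool.Graph.R_pool_sql_team_seeded_620a6dc7.H405.T16
import Pool.Graph.R_pool_sql_team_seeded_620a6dc7.H405.T17
import Pool.Graph.R_pool_sql_team_seeded_620a6dc7.H405.T21b
import Pool.Graph.R_pool_sql_team_seeded_620a6dc7.H405.T22
import Pool.Graph.R_pool_sql_team_seeded_620a6dc7.H405.T23
import Pool.Graph.R_pool_sql_team_seeded_620a6dc7.H405.T24
import Pool.Graph.R_pool_sql_team_seeded_620a6dc7.H405.T25
import Pool.Graph.R_pool_sql_team_seeded_620a6dc7.H405.T26
import Pool.Graph.R_pool_sql_team_seeded_620a6dc7.H405.T27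
import Pool.Graph.R_pool_sql_team_seeded_620a6dc7.H405.T31
import Pool.Graph.R_pool_sql_team_seeded_620a6dc7.H405.T32
import Pool.Graph.R_pool_sql_team_seeded_620a6dc7.H405.T33
import Pool.Graph.R_pool_sql_team_seeded_620a6dc7.H405.T34
import Pool.Graph.R_pool_sql_team_seeded_620a6dc7.H405.T35
import Pool.Graph.R_pool_sql_team_seeded_620a6dc7.H405.T41
import Pool.Graph.R_pool_sql_team_seeded_620a6dc7.H405.T42
import Pool.Graph.R_pool_sql_team_seeded_620a6dc7.H405.T43
import Pool.Graph.R_pool_sql_team_seeded_620a6dc7.H405.T50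
import Pool.Graph.R_pool_sql_team_seeded_620a6dc7.H405.T51
import Pool.Graph.R_pool_sql_team_seeded_620a6dc7.H405.T52
import Pool.Graph.R_pool_sql_team_seeded_620a6dc7.H405.T53
import Pool.Graph.R_pool_sql_team_seeded_620a6dc7.H405.T54
import Pool.Graph.R_pool_sql_team_seeded_620a6dc7.H405.T54b
import Pool.Graph.R_pool_sql_team_seeded_620a6dc7.H405.T55
import Pool.Graph.R_pool_sql_team_seeded_620a6dc7.H405.T56
import Pool.Graph.R_pool_sql_team_seeded_620a6dc7.H405.T57
import Pool.Graph.R_pool_sql_team_seeded_620a6dc7.H405.T58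
import Pool.Graph.R_pool_sql_team_seeded_620a6dc7.H405.T59
import Pool.Graph.R_pool_sql_team_seeded_620a6dc7.H405.T510
import Pool.Graph.R_pool_sql_team_seeded_620a6dc7.H405.T61
import Pool.Graph.R_pool_sql_team_seeded_620a6dc7.H405.T62
import Pool.Graph.R_pool_sql_team_seeded_620a6dc7.H405.T63
import Pool.Graph.R_pool_sql_team_seeded_620a6dc7.H405.T64
import Pool.Graph.R_pool_sql_team_seeded_620a6dc7.H405.T65
import Pool.Graph.R_pool_sql_team_seeded_620a6dc7.H405.T71
import Pool.Graph.R_pool_sql_team_seeded_620a6dc7.H405.T72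
import Pool.Graph.R_pool_sql_team_seeded_620a6dc7.H405.T73

set_option autoImplicit false

namespace Pool.Agent.Results.MP_32448b_gt.Characterization

open Set Topology Filter Metric
open Pool.Agent.R638.DD Pool.Agent.H405

/-- `X` is a dendrite: a locally connected metric continuum without simple closed curve. -/
def Dendrite (X : Type) [MetricSpace X] : Prop :=
  CompactSpace X ∧ ConnectedSpace X ∧ LocallyConnectedSpace X ∧
    ∀ g : Circle → X, Continuous g → ¬ Function.Injective g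

/-- `Y` is a `k`-to-1 image of a dendrite. -/
def KImage (Y : Type) [MetricSpace Y] (k : ℕ) : Prop :=
  ∃ (X : Type) (_ : MetricSpace X), Dendrite X ∧
    ∃ f : X → Y, Continuous f ∧ ∀ y : Y, Set.ncard (f ⁻¹' {y}) = k

/-- `Y` is a continuous image of a dendrite. -/
def DendriteImage (Y : Type) [MetricSpace Y] : Prop :=
  ∃ (X : Type) (_ : MetricSpace X), Dendrite X ∧
    ∃ f : X → Y, Continuous f ∧ Function.Surjective f

/-- Any two distinct points of `S` are separated in `S` by the removal of at most one point. -/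
def Thin {Y : Type} [MetricSpace Y] (S : Set Y) : Prop :=
  ∀ u ∈ S, ∀ v ∈ S, u ≠ v → ∃ A B : Set Y, IsOpen A ∧ IsOpen B ∧ u ∈ A ∧ v ∈ B ∧
    A ∩ B ∩ S = ∅ ∧ (S \ (A ∪ B)).Subsingleton

/-- `Y` is the union of countably many closed thin sets. -/
def SigmaThin (Y : Type) [MetricSpace Y] : Prop :=
  ∃ T : ℕ → Set Y, (∀ n, IsClosed (T n) ∧ Thin (T n)) ∧ ⋃ n, T n = univ

theorem isDen {X : Type} [MetricSpace X] (h : Dendrite X) : IsDen X := by
  obtain ⟨h1, h2, h3, h4⟩ := h
  exact isDen_of (t_Third t_Path t_PArc t_Comp) ⟨⟨h1, inferInstance, h2, h3⟩, h4⟩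

/-- the construction, from the three properties -/
theorem core (h31 : Stm31) (h32 : Stm32) (h35 : Stm35) (h73 : Stm73) (h74 : Stm74)
    (Y : Type) [MetricSpace Y] [CompactSpace Y] (hSTP : STP Y) (hPP : PP (univ : Set Y))
    (hnTP : ¬ TP (univ : Set Y)) (m : ℕ) (hm : 2 ≤ m) :
    ∃ (X' : Type) (_ : TopologicalSpace X') (g : X' → Y × Fin m), IsDen X' ∧
      Continuous (fun p => (g p).1) ∧ Function.Bijective g := by
  obtain ⟨e, a, b, heo, hab, hae, hbe, hcl, hden, hLTP, ρ, hρ, hρr⟩ := h73 Y hSTP hPP hnTP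
  have hPP1 : PP eᶜ := by
    obtain ⟨X, _, f, hX, hf, hsurj⟩ := hPP
    refine ⟨X, inferInstance, ρ ∘ f, hX, hρ.comp hf, ?_⟩
    rw [range_comp, hsurj, image_univ, hρr]
  obtain ⟨M, hM1, haM, hMden, hMt⟩ := h74 Y m hm hSTP eᶜ a hPP1 hae (hLTP.mono (subset_univ _))
  -- tile `eᶜ \ {a}`
  have t1 : Tile ((M \ {a}) ×ˢ (univ : Set (Fin m))) {a} := tile_copies m M a hMden haM
  have t2 : Tile ((eᶜ \ {a}) ×ˢ (univ : Set (Fin m))) {a} := by
    have h := h32 Y (Fin m) ((eᶜ \ M) ×ˢ univ) ((M \ {a}) ×ˢ univ) {a} ?_ t1 ?_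
    · have e1 : (eᶜ \ M) ×ˢ (univ : Set (Fin m)) ∪ (M \ {a}) ×ˢ univ = (eᶜ \ {a}) ×ˢ univ := by
        rw [← union_prod]
        congr 1
        ext y
        simp only [mem_union, Set.mem_sdiff, mem_compl_iff, mem_singleton_iff]
        constructor
        · rintro (⟨h, h'⟩ | ⟨h, h'⟩)
          · exact ⟨h, fun hh => h' (hh ▸ haM)⟩
          · exact ⟨hM1 h, h'⟩
        · rintro ⟨h, h'⟩
          by_cases hy : y ∈ M
          · exact Or.inr ⟨hy, h'⟩
          · exact Or.inl ⟨h, hy⟩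
      rw [e1] at h
      exact h
    · rw [Set.disjoint_left]
      rintro ⟨y, i⟩ ⟨⟨_, h⟩, _⟩ ⟨⟨h', _⟩, _⟩
      exact h h'
    · refine hMt.mono ?_
      intro y hy
      by_cases h : y = a
      · exact Or.inl h
      · have i : Fin m := ⟨0, by omega⟩
        exact Or.inr ⟨(y, i), ⟨⟨hy, h⟩, trivial⟩, rfl⟩
  let i0 : Fin m := ⟨0, by omega⟩
  have haD : a ∈ closure e := by rw [hcl]; simp
  have hbD : b ∈ closure e := by rw [hcl]; simp
  have t3 := h35 Y m hm (closure e) a b hden haD hbD hab i0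
  have eD : closure e \ {a, b} = e := by
    rw [hcl]
    ext y
    simp only [Set.mem_sdiff, mem_union, mem_insert_iff, mem_singleton_iff, not_or]
    constructor
    · rintro ⟨h | h, h1, h2⟩
      · exact h
      · exact (h.elim h1 h2).elim
    · intro h
      exact ⟨Or.inl h, fun h' => hae (h' ▸ h), fun h' => hbe (h' ▸ h)⟩
  rw [eD] at t3
  have t4 : Tile (e ×ˢ (univ : Set (Fin m)) ∪ {a} ×ˢ {i | i ≠ i0} ∪
      (eᶜ \ {a}) ×ˢ (univ : Set (Fin m))) {a} := by
    refine h32 Y (Fin m) _ _ {a} ?_ t2 ?_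
    · rw [Set.disjoint_left]
      rintro ⟨y, i⟩ (⟨h, _⟩ | ⟨h, _⟩) ⟨⟨h', h''⟩, _⟩
      · exact h' h
      · exact h'' h
    · refine t3.mono ?_
      rintro y (h | h)
      · exact Or.inl h
      · refine Or.inr ⟨(y, i0), ⟨⟨?_, ?_⟩, trivial⟩, rfl⟩
        · rw [mem_singleton_iff] at h
          rw [h]; exact hbe
        · rw [mem_singleton_iff] at h
          rw [h]; exact fun h => hab (by rw [mem_singleton_iff] at h; exact h.symm)
  obtain ⟨X', iX', g, hX', hg1, hg2, hg3⟩ := h31 Y (Fin m) Unit (fun _ => (a, i0)) _ {a}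
    isDen_unit continuous_const (fun _ _ _ => Subsingleton.elim _ _) (by
      rw [Set.disjoint_left]
      rintro _ ⟨_, rfl⟩ ((⟨h, _⟩ | ⟨_, h⟩) | ⟨⟨_, h⟩, _⟩)
      · exact hae h
      · exact h rfl
      · exact h rfl) (by
      rintro y rfl
      exact ⟨(_, i0), ⟨(), rfl⟩, rfl⟩) t4
  refine ⟨X', iX', g, hX', hg1, hg2, ?_⟩
  rw [← range_eq_univ, hg3, eq_univ_iff_forall]
  rintro ⟨y, i⟩
  by_cases hy : y ∈ e
  · exact Or.inr (Or.inl (Or.inl ⟨hy, trivial⟩))
  · by_cases hya : y = a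
    · by_cases hi : i = i0
      · exact Or.inl ⟨(), by rw [hya, hi]⟩
      · exact Or.inr (Or.inl (Or.inr ⟨hya, hi⟩))
    · exact Or.inr (Or.inr ⟨⟨hy, hya⟩, trivial⟩)

theorem kimage_of (h31 : Stm31) (h32 : Stm32) (h35 : Stm35) (h73 : Stm73) (h74 : Stm74)
    (Y : Type) [MetricSpace Y] [CompactSpace Y] (hSTP : STP Y) (hPP : PP (univ : Set Y))
    (hnTP : ¬ TP (univ : Set Y)) (m : ℕ) (hm : 2 ≤ m) : KImage Y m := by
  obtain ⟨X', iX', g, hX', hg, hbij⟩ := core h31 h32 h35 h73 h74 Y hSTP hPP hnTP m hm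
  have := hX'.metrizable
  let _ := TopologicalSpace.metrizableSpaceMetric X'
  exact ⟨X', inferInstance, ⟨hX'.compact, hX'.connected, hX'.locConn, t_Noc X' hX'.third⟩,
    fun p => (g p).1, hg, fun y => fin0_ncard g hbij y⟩

/-- The class of `k`-to-1 images of dendrites is the same for all `k ≥ 2`, and it consists of the
continuous images of dendrites which contain a simple closed curve and are unions of countably many
closed thin sets. -/
theorem result (Y : Type) [MetricSpace Y] [CompactSpace Y] [ConnectedSpace Y] :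
    ((∃ k, 2 ≤ k ∧ KImage Y k) ↔ ∀ k, 2 ≤ k → KImage Y k) ∧
    ((∃ k, 2 ≤ k ∧ KImage Y k) ↔
      DendriteImage Y ∧ (∃ c : Circle → Y, Continuous c ∧ Function.Injective c) ∧
        SigmaThin Y) := by
  have h11 := Pool.Agent.H405.t11
  have h12 := Pool.Agent.H405.t12
  have h13 := Pool.Agent.H405.t13
  have h14 := Pool.Agent.H405.t14
  have h15 := Pool.Agent.H405.t15 h12
  have h15b := Pool.Agent.H405.t15b
  have h16 := Pool.Agent.H405.t16 h15b
  have h17 := Pool.Agent.H405.t17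
  have h21b := Pool.Agent.H405.t21b
  have h22 := Pool.Agent.H405.t22
  have h23 := Pool.Agent.H405.t23 h22
  have h24 := Pool.Agent.H405.t24
  have h25 := Pool.Agent.H405.t25
  have h26 := Pool.Agent.H405.t26 h22
  have h27 := Pool.Agent.H405.t27 h22
  have h31 := Pool.Agent.H405.t31
  have h32 := Pool.Agent.H405.t32
  have h33 := Pool.Agent.H405.t33
  have h34 := Pool.Agent.H405.t34 h11 h27 h32
  have h35 := Pool.Agent.H405.t35 h11 h27 h32
  have h41 := Pool.Agent.H405.t41 h32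
  have h42 := Pool.Agent.H405.t42 h17 h33
  have h43 := Pool.Agent.H405.t43 h16
  have h44 := Pool.Agent.H405.t44 h16
  have h50 := Pool.Agent.H405.t50
  have h51 := Pool.Agent.H405.t51
  have h52 := Pool.Agent.H405.t52 h12 h13
  have h53 := Pool.Agent.H405.t53 h11 h24 h25 h26
  have h54 := Pool.Agent.H405.t54 h11 h23 h50 h53
  have h54b := Pool.Agent.H405.t54b h11 h12 h21b h50 h53
  have h55 := Pool.Agent.H405.t55 h51 h52 h54
  have h56 := Pool.Agent.H405.t56 h15 h15b h16 h17 h51 h55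
  have h57 := Pool.Agent.H405.t57 h11 h12 h14 h51 h52 h54b h56
  have h58 := Pool.Agent.H405.t58 h17 h51
  have h59 := Pool.Agent.H405.t59 h11 h17 h33 h34 h51 h58
  have h510 := Pool.Agent.H405.t510 h51 h57 h59
  have h61 := Pool.Agent.H405.t61 h41 h43
  have h62 := Pool.Agent.H405.t62 h12 h14
  have h63 := Pool.Agent.H405.t63
  have h64 := Pool.Agent.H405.t64 h41 h42 h43 h62 h63
  have h65 := Pool.Agent.H405.t65 h16 h41 h43 h44 h510 h64
  have h66 := Pool.Agent.H405.t66 h61 h65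
  have h71 := Pool.Agent.H405.t71
  have h72 := Pool.Agent.H405.t72
  have h73 := Pool.Agent.H405.t73 h11 h43 h44 h51 h57 h59
  have h74 := Pool.Agent.H405.t74 h41 h43 h57 h59 h66
  have key : (∃ k, 2 ≤ k ∧ KImage Y k) → DendriteImage Y ∧
      (∃ c : Circle → Y, Continuous c ∧ Function.Injective c) ∧ SigmaThin Y := by
    rintro ⟨k, hk, X, _, hX, f, hf, hfib⟩
    have hden : IsDen X := isDen hX
    have := hX.1
    have := hX.2.1
    have := hX.2.2.1
    have hsurj : Function.Surjective f := by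
      intro y
      have : (f ⁻¹' {y}).Nonempty := by
        rw [← ncard_pos (Set.finite_of_ncard_pos (by rw [hfib]; omega)), hfib]; omega
      exact this
    refine ⟨⟨X, inferInstance, hX, f, hf, hsurj⟩, ?_, h71 X Y f k hden hf (by omega) hfib⟩
    by_contra hno
    have hno' : NoCircle Y := fun c hc hi => hno ⟨c, hc, hi⟩
    have hq : IsQuotientMap f := hf.isClosedMap.isQuotientMap hf hsurj
    have hlc : LocallyConnectedSpace Y := hq.locallyConnectedSpace
    have hY : IsDen Y := isDen_of (t_Third t_Path t_PArc t_Comp)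
      ⟨⟨inferInstance, inferInstance, inferInstance, hlc⟩, hno'⟩
    refine h72 X Y f k hf hk hfib ?_
    intro u _ v _ huv
    obtain ⟨r, A, B, hA, hB, hAB, hun, hu, hv⟩ := hY.third u v huv
    refine ⟨A, B, hA, hB, hu, hv, ?_, ?_⟩
    · rw [inter_univ]; exact hAB.inter_eq
    · rw [hun, ← compl_eq_univ_sdiff, compl_compl]
      exact subsingleton_singleton
  have key2 : (DendriteImage Y ∧ (∃ c : Circle → Y, Continuous c ∧ Function.Injective c) ∧
      SigmaThin Y) → ∀ k, 2 ≤ k → KImage Y k := by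
    rintro ⟨⟨X, _, hX, f, hf, hs⟩, ⟨c, hc, hi⟩, hST⟩ k hk
    refine kimage_of h31 h32 h35 h73 h74 Y hST ⟨X, inferInstance, f, isDen hX, hf, hs.range_eq⟩ ?_
      k hk
    intro hTP
    have hD : IsDen ↥(univ : Set Y) :=
      h11 Y univ isCompact_univ isPreconnected_univ univ_nonempty hTP
    exact t_Noc _ hD.third (fun z => ⟨c z, trivial⟩) (hc.subtype_mk _)
      (fun z w h => hi (congrArg Subtype.val h))
  exact ⟨⟨fun h => key2 (key h), fun h => ⟨2, le_rfl, h 2 le_rfl⟩⟩,
    ⟨key, fun h => ⟨2, le_rfl, key2 h 2 le_rfl⟩⟩⟩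

end Pool.Agent.Results.MP_32448b_gt.Characterization
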